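import Pool.Agent.H29.ENR.Stmts
import Pool.Agent.H55.NEU.Psl5

/-!
# Board enr (MP_d15c96_al), second part: the condition `Good p (PSL(2,q))`

Notation of `Pool.Agent.H55.NEU` (files Psl1 to Psl5): `SL2 F`, `PS F`, `pr : SL2 F →* PS F`, `mk2`,
`uu x`, `vv x`, `hh t`, `UU F` (the image of the upper unipotent elements), `ee c φ` (the automorphism
given by the diagonal automorphism of `c` and the field automorphism `φ`), `fld`. Useful: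
`pr_eq_iff`, `sl_ext`, `mk2_mul`, `mk2_inv`, `mk2_congr`, `pr_mk2_eq`, `pr_mem_UU`, `pr_uu_inj`,
`conj_uu`, `EE_apply`, `ee_pr`, `ee_mul`, `fld_spec`, `fld_eq`, `card_PS`, `sylow_of_card`, `conj_comm`.
Every row `XXX` is a statement `XXXStmt : Prop`; the proof is in its docstring.
-/

set_option autoImplicit false

namespace Pool.ENR

open Pool.Agent.H81.ENG Pool.Agent.H55.NEU

/-- The image of the upper triangular matrices. -/
def TT (F : Type) [Field F] : Subgroup (PS F) where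
  carrier := {g | ∃ M : SL2 F, M 1 0 = 0 ∧ pr M = g}
  one_mem' := ⟨1, rfl, map_one _⟩
  mul_mem' := by
    rintro _ _ ⟨M, hM, rfl⟩ ⟨N, hN, rfl⟩
    refine ⟨M * N, ?_, map_mul _ _ _⟩
    rw [mul_10, hM, hN]
    ring
  inv_mem' := by
    rintro _ ⟨M, hM, rfl⟩
    refine ⟨M⁻¹, ?_, map_inv _ _⟩
    rw [inv_eq]
    show -(M 1 0) = 0
    rw [hM, neg_zero]

/-! ## Sequences and transport -/

/-- Row SQE (20 lines). Proof: `x i = (τ ^ (i / k)) (h (i % k).toNat)` (integer division). -/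
def SQEStmt : Prop :=
  ∀ (T : Type) [Group T] (τ : MulAut T) (k : ℕ), 0 < k → ∀ h : ℕ → T,
    ∃ x : TSq τ k, ∀ l : ℕ, l < k → (x : ℤ → T) l = h l

/-- Row SQP (30 lines). Proof: induction on `n`, `m` (`tsh_apply`, `shift_apply`). -/
def SQPStmt : Prop :=
  ∀ (T : Type) [Group T] (τ : MulAut T) (k n : ℕ) (x : TSq τ k) (i : ℤ),
    (((tsh τ k ^ n) x : TSq τ k) : ℤ → T) i = (x : ℤ → T) (i + n) ∧
    (x : ℤ → T) (i + k * n) = (τ ^ n) ((x : ℤ → T) i) ∧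
    (((tsh τ k)⁻¹ x : TSq τ k) : ℤ → T) i = (x : ℤ → T) (i - 1)

/-- Row SCJ (30 lines). Proof: take `Γ.comap e.toMonoidHom`, `D.comap e.toMonoidHom`
(`Subgroup.relIndex_comap`, `Subgroup.map_comap_eq_self_of_surjective`);
`e ((σ ^ n) x) = ((e * σ * e⁻¹) ^ n) (e x)`. -/
def SCJStmt : Prop :=
  ∀ (T : Type) [Group T] (p m : ℕ) (σ e : MulAut T), Sec p m (e * σ * e⁻¹) → Sec p m σ

/-- Row WCJ (40 lines). Proof: `η ↦ e ∘ η` is an isomorphism from `TSq σ k` to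
`TSq (e * σ * e⁻¹) k` which commutes with the shifts: `L.of_surj` for `tsh` and its inverse. -/
def WCJStmt : Prop :=
  ∀ (T : Type) [Group T] (p b m : ℕ) (σ e : MulAut T), Wr p (e * σ * e⁻¹) b m → Wr p σ b m

/-! ## Group theory -/

/-- Row FXY (40 lines). Proof: `zpowers σ`, a `p`-group, acts on the finite set `Sylow r T`
(`Sylow.pointwiseMulAction` for `MulAut T`, or the permutation `P ↦ P.mapSurjective` and
`Equiv.Perm.exists_fixed_point_of_prime`); the number of points is prime to `p`, so there is a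
fixed point. -/
def FXYStmt : Prop :=
  ∀ (T : Type) [Group T] [Finite T] (p r N : ℕ) (σ : MulAut T), p.Prime → r.Prime →
    σ ^ (p ^ N) = 1 → ¬ p ∣ Nat.card (Sylow r T) → ∃ P : Sylow r T, ∀ x, x ∈ P ↔ σ x ∈ P

/-- Row TRC (15 lines). Proof: put `x = a y⁻¹ a y`; `w` commutes with `x y⁻¹ = a y⁻¹ a`. From
`a² = (a y)³ = 1` one gets `a y⁻¹ a = y a y` (see the proof of `trefoil_rel` in
`H81/ENG/AltLaw.lean`), so `w` commutes with `y a y`, hence with `a`. -/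
def TRCStmt : Prop :=
  ∀ (T : Type) [Group T] (a y w : T), a * a = 1 → (a * y) ^ 3 = 1 → w * y = y * w →
    w * (a * (y⁻¹ * a * y)) = (a * (y⁻¹ * a * y)) * w → w * a = a * w

/-- Row FXC (120 lines; needs FXY). `⟨s⟩` is a Sylow `p`-subgroup (order `p ^ a`, and
`p ^ (a+1) ∤ |T|`). By FXY (`r = p`, number of Sylow subgroups `≡ 1 mod p`) some conjugate of it is
`σ`-invariant; replace `s, n` by conjugates: `Q = zpowers s`, `σ Q = Q`, `σ s = s ^ lam`,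
`lam ^ (p ^ N) ≡ 1 mod p ^ a`, and `lam ≡ lam ^ (p ^ N) mod p` (Fermat), so `lam ≡ 1 mod p`. Let
`X = {y | y s y⁻¹ = s⁻¹}`, `n ∈ X`, `X = n C(s)`; `σ X = X` (if `y ∈ X` then `σ y` inverts `s ^ lam`,
which generates `Q`); `X Q = X`. In `T ⧸ Q` the set `Y` of the cosets `y Q`, `y ∈ X`, has
`|Y| * p ^ a = |X| = |C(s)|`, a divisor of `|T|`, so `p ∤ |Y|`. The permutation `y Q ↦ σ(y) Q` of
`Y` has `p`-power order, so it has a fixed point (`Equiv.Perm.exists_fixed_point_of_prime`):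
`y ∈ X`, `y⁻¹ σ(y) ∈ Q`, and `σ y = y s ^ i = s ^ (-i) y`. Take `n' = y`. -/
def FXCStmt : Prop :=
  ∀ (T : Type) [Group T] [Finite T] (p a N : ℕ) (σ : MulAut T) (s n : T), p.Prime → p ≠ 2 →
    1 ≤ a → orderOf s = p ^ a → ¬ p ^ (a + 1) ∣ Nat.card T → n * s * n⁻¹ = s⁻¹ →
    σ ^ (p ^ N) = 1 → ∃ (s' n' : T) (lam be : ℕ), orderOf s' = p ^ a ∧ n' * s' * n'⁻¹ = s'⁻¹ ∧
      σ s' = s' ^ lam ∧ lam ≡ 1 [MOD p] ∧ σ n' = s' ^ be * n'

/-- Row CYT (40 lines; needs FXC). Proof: `t = s' ^ x` with `2 x + be ≡ 1 mod p ^ a` (2 is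
invertible): `(conj t * σ) n' = s' ^ (x + be) n' s' ^ (-x) = s' ^ (2 x + be) n' = s' n'` and
`(conj t * σ) s' = s' ^ lam`. `Cyc` with `j = p ^ a - 1`, `u = 1` (`j ≡ -1 ≢ 1 mod p`). -/
def CYTStmt : Prop :=
  ∀ (T : Type) [Group T] [Finite T] (p a N : ℕ) (σ : MulAut T) (s n : T), p.Prime → p ≠ 2 →
    1 ≤ a → orderOf s = p ^ a → ¬ p ^ (a + 1) ∣ Nat.card T → n * s * n⁻¹ = s⁻¹ →
    σ ^ (p ^ N) = 1 → ∃ t : T, Cyc p a (MulAut.conj t * σ)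

/-- Row CYN (80 lines; needs FXC). Proof: take `s', n', lam, be` of FXC, `Q = zpowers s'`, a Sylow
`p`-subgroup. `conj h = σ ^ (p ^ j)` has `p`-power order, so `h` has `p`-power order (hypothesis on
the centre), and `h` normalises `Q`; `Q ⟨h⟩` is a `p`-group, so `h ∈ Q` (maximality of Sylow
subgroups; e.g. `IsPGroup.to_sup_of_normal_right'` in the normaliser, or `IsPGroup.inf_normalizer_sylow`:
a `p`-subgroup `P` satisfies `P ⊓ normalizer Q = P ⊓ Q`), `h = s' ^ i`. Then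
`(σ ^ (p ^ j)) n' = s' ^ (2 i) n'`, and by induction
`(σ ^ M) n' = s' ^ (be * ∑_{l<M} lam ^ l) * n'`. So `2 i ≡ be * ∑_{l < p ^ j} lam ^ l mod p ^ a`, and
`p ^ j ∣ ∑_{l < p ^ j} lam ^ l` since `lam ≡ 1 mod p` (induction on `j`: the sum for `p ^ (j+1)` is
the sum for `p ^ j` times `∑_{l<p} (lam ^ (p ^ j)) ^ l ≡ p ≡ 0`). As `j ≤ a` and `p ≠ 2`:
`p ^ j ∣ i`. Hence `h ^ (p ^ (a - j)) = 1` and
`σ ^ (p ^ a) = (conj h) ^ (p ^ (a - j)) = 1`. -/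
def CYNStmt : Prop :=
  ∀ (T : Type) [Group T] [Finite T] (p a N j : ℕ) (σ : MulAut T) (s n h : T),
    (∀ g : T, MulAut.conj g = 1 → g = 1) → p.Prime → p ≠ 2 →
    1 ≤ a → orderOf s = p ^ a → ¬ p ^ (a + 1) ∣ Nat.card T → n * s * n⁻¹ = s⁻¹ →
    σ ^ (p ^ N) = 1 → j ≤ a → σ ^ (p ^ j) = MulAut.conj h → σ ^ (p ^ a) = 1

/-- Row LRF (100 lines). Write `V` additively (`Additive V`), `A = AddMonoid.End (Additive V)`, a
finite ring, `s : A`; `ef s` is `s - 1`. Let `ev : ℤ[X] →+* A`, `X ↦ s` (`Polynomial.aeval s`),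
`I = ker ev`, `w = s ^ (p ^ (μ-1))`, `w ^ p = 1`, `w ≠ 1`, `F = ∑_{i<p} X ^ (p ^ (μ-1) * i)`.
`I ⊔ span {F} ≠ ⊤`: otherwise `ev g * ev F = 1` for some `g`, but `(w - 1) * ev F = w ^ p - 1 = 0`
(everything commutes), so `w = 1`. Let `m` be a maximal ideal above it, `K = ℤ[X] ⧸ m`, a field,
finite because it is a quotient of `ℤ[X] ⧸ I`, which embeds into `A`; `ζ` the class of `X`.
`ζ ^ (p ^ μ) = 1`; `p ≠ 0` in `K`: `Nat.card V` is `0` in `A`, so in `K`, and it is prime to `p`.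
`ζ ^ (p ^ (μ-1)) ≠ 1` since otherwise the class of `F` is `p`. So `ζ` is a primitive `p ^ μ`-th
root of unity and `root_field` (`H81/ENG/Root.lean`) gives `r > 0` with `(ζ - 1) ^ r = ζ` or
`(ζ⁻¹ - 1) ^ r = ζ⁻¹` (`ζ⁻¹ = ζ ^ (p ^ μ - 1)`). In the first case put `x = (s - 1) ^ r - s` in
`A`. If `x` is injective on the finite group `V` then it is bijective and `x ^ l = 1` for some
`l > 0` (`exists_pow_eq_one` in the finite monoid of units, or pigeonhole), so the class of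
`((X - 1) ^ r - X) ^ l - 1 ∈ I` in `K` is `0 - 1 ≠ 0`, contradiction. So there is `v ≠ 0` with
`(s - 1) ^ r v = s v`. The second case is the same with
`x = (s ^ (p ^ μ - 1) - 1) ^ r - s ^ (p ^ μ - 1)` (`s⁻¹ = s ^ (p ^ μ - 1)`). -/
def LRFStmt : Prop :=
  ∀ (V : Type) [CommGroup V] [Finite V] (p μ : ℕ) (s : MulAut V), p.Prime → p ≠ 2 → 1 ≤ μ →
    ¬ p ∣ Nat.card V → s ^ (p ^ μ) = 1 → s ^ (p ^ (μ - 1)) ≠ 1 →
    ∃ v : V, v ≠ 1 ∧ ∃ r : ℕ, 0 < r ∧ ((ef s)^[r] v = s v ∨ (ef s⁻¹)^[r] v = s⁻¹ v)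

/-- Row LRQ (60 lines; needs LRF). Proof: `V = B ⧸ N` is abelian, finite, of order prime to `p`
(Cauchy: an element of order `p` would be killed by `E`), with the automorphism `s` induced by `S`;
`s ^ (p ^ μ) = 1`, `s ^ (p ^ (μ-1)) ≠ 1`. Take a representative `ξ` of the element `v` of LRF. -/
def LRQStmt : Prop :=
  ∀ (B : Type) [Group B] [Finite B] (N : Subgroup B) [N.Normal] (p μ E : ℕ) (S : MulAut B),
    p.Prime → p ≠ 2 → 1 ≤ μ → (∀ x : B, x ∈ N ↔ S x ∈ N) → (∀ x y : B, x * y * x⁻¹ * y⁻¹ ∈ N) →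
    ¬ p ∣ E → (∀ x : B, x ^ E ∈ N) → (∀ x : B, (S ^ (p ^ μ)) x * x⁻¹ ∈ N) →
    (∃ x : B, (S ^ (p ^ (μ - 1))) x * x⁻¹ ∉ N) →
    ∃ (ξ : B) (r : ℕ), ξ ∉ N ∧ 0 < r ∧ ((ef S)^[r] ξ * (S ξ)⁻¹ ∈ N ∨
      (ef S⁻¹)^[r] ξ * (S⁻¹ ξ)⁻¹ ∈ N)

/-- Row AFK (100 lines). Copy of `geom_poly`, `geom_end`, `la`, `aff_count` of
`H81/ENG/LA.lean` with `ZMod p` replaced by the field `K` of characteristic `p`. -/
def AFKStmt : Prop :=
  ∀ (V K : Type) [Field K] [AddCommGroup V] [Module K V] [FiniteDimensional K V] (p μ : ℕ)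
    [Fact p.Prime] [CharP K p], Module.finrank K V ≤ p ^ μ →
    ∀ (A : V →ₗ[K] V) (u z : V), z ≠ 0 → A z = 0 → ∀ (n : V) (r : ℕ), r ≠ 0 →
      (fun v => A v + u)^[r * p ^ (μ + 1)] n = n → (fun v => A v + u)^[r * p ^ μ] n = n

/-- Row UNK (160 lines; needs AFK). Copy of `lin_part` and `unip` of `H81/ENG/Unip.lean`, with the
abelian normal subgroup `N` replaced by the image of `e`: first by induction on `j` a `K`-linear `a` with
`(ef S)^[j] (e v * ξ) = e (a v) * (ef S)^[j] ξ` and (`0 < j`) `a z = 0`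
(the step is `a' v = c (g⁻¹) (s (a v) - a v)`, `g = (ef S)^[j] ξ`; `e (a' v)` is
`g⁻¹ * ((e (a v))⁻¹ * S (e (a v))) * g`; use `s z = z`); then the affine map
`v ↦ s' (a v) + u₀`, `e u₀ = S⁻¹ ((ef S)^[r] ξ) * ξ⁻¹`, and AFK in place of `aff_count_grp`. The
element `e z` has `e z ^ p = e (p • z) = 1`. -/
def UNKStmt : Prop :=
  ∀ (B V K : Type) [Group B] [Field K] [AddCommGroup V] [Module K V] [FiniteDimensional K V]
    [Finite V] (p μ : ℕ) [Fact p.Prime] [CharP K p], Module.finrank K V ≤ p ^ μ →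
    ∀ (e : V → B) (S : MulAut B) (s s' : V →ₗ[K] V) (c : B → V →ₗ[K] V), Function.Injective e →
      (∀ v w, e (v + w) = e v * e w) → (∀ v, S (e v) = e (s v)) → (∀ v, S⁻¹ (e v) = e (s' v)) →
      (∀ g v, g * e v * g⁻¹ = e (c g v)) → ∀ z : V, s z = z →
      (∀ x : B, (S ^ (p ^ μ)) x = (e z)⁻¹ * x * e z) → ∀ (ξ : B) (r : ℕ), 0 < r →
      e z * ξ ≠ ξ * e z → (∃ w : V, (ef S)^[r] ξ * (S ξ)⁻¹ = e w) →
      ∀ d : ℕ, L S d → p ^ (μ + 1) ∣ d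

/-- Row UTV (150 lines; needs UNK, SQP). Proof: `k = p ^ b`, `K` = fixed field of `φ`
(`FixedPoints.subfield (Subgroup.zpowers φ) F`, `FixedPoints.finrank_eq_card`:
`[F : K] = orderOf φ = p ^ j`; `K` has characteristic `p`). `V` = the `K`-submodule
`{x : ℤ → F | ∀ i, x (i + k) = φ (x i)}` of `ℤ → F`; restriction to `0, .., k-1` is an injection
into `Fin k → F`, so `finrank K V ≤ p ^ (b + j)`, `μ = b + j`. `B = TSq τ k`,
`e x = (i ↦ u (x i))` (in `TSq` since `τ (u x) = u (φ x)`), `S = tsh τ k`, `s` = shift on `V`, `s'`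
= inverse shift, `c g x = (i ↦ χ (g i) * x i)`, in `V` because `χ (τ g) = φ (χ g)` (apply `τ` to
`g * u x * g⁻¹ = u (χ g * x)` and use injectivity of `u`). `z = ` constant sequence `-t0`:
`(S ^ (p ^ μ)) x` at `i` is `x (i + k * p ^ j) = (τ ^ (p ^ j)) (x i) = u t0 * x i * (u t0)⁻¹`
(SQP), and `(e z) i = u (-t0) = (u t0)⁻¹`. `ξ` does not commute with `e z`: otherwise
`χ (ξ i) * t0 = t0` for all `i`. A sequence `y ∈ B` with `χ (y i) = 1` for all `i` is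
`e w`, `w i` with `y i = u (w i)` (`w ∈ V` by injectivity of `u`). Apply UNK to `S`. In the second
case apply UNK to `S⁻¹`, `s', s`, and `-z`. -/
def UTVStmt : Prop :=
  ∀ (Γ F : Type) [Group Γ] [Finite Γ] [Field F] [Finite F] (p b j : ℕ) [Fact p.Prime]
    [CharP F p] (φ : F ≃+* F) (τ : MulAut Γ) (u : F → Γ) (χ : Γ → F) (t0 : F),
    orderOf φ = p ^ j → Function.Injective u → (∀ x y, u (x + y) = u x * u y) →
    (∀ g x, g * u x * g⁻¹ = u (χ g * x)) → (∀ g, χ g = 1 → ∃ x, g = u x) →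
    (∀ x, τ (u x) = u (φ x)) → t0 ≠ 0 → φ t0 = t0 →
    (∀ g, (τ ^ (p ^ j)) g = u t0 * g * (u t0)⁻¹) →
    ∀ (ξ : TSq τ (p ^ b)) (r d : ℕ), 0 < r → (∃ i : ℤ, χ ((ξ : ℤ → Γ) i) ≠ 1) →
      (((∀ i : ℤ, χ ((((ef (tsh τ (p ^ b)))^[r] ξ * (tsh τ (p ^ b) ξ)⁻¹ : TSq τ (p ^ b)) :
          ℤ → Γ) i) = 1) ∧ L (tsh τ (p ^ b)) d) ∨
       ((∀ i : ℤ, χ ((((ef (tsh τ (p ^ b))⁻¹)^[r] ξ * ((tsh τ (p ^ b))⁻¹ ξ)⁻¹ : TSq τ (p ^ b)) :
          ℤ → Γ) i) = 1) ∧ L (tsh τ (p ^ b))⁻¹ d)) →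
      p ^ (b + j + 1) ∣ d

/-- Row UTG (120 lines; needs LRQ, UTV, SQE, SQP). Proof: `k = p ^ b`, `μ = b + j`,
`B = TSq τ k` (finite: a sequence is determined by its values at `0, .., k-1`), `S = tsh τ k`,
`N = {x ∈ B | ∀ i, χ (x i) = 1}`. `χ` is multiplicative with `χ 1 = 1` (apply
`g * u x * g⁻¹ = u (χ g * x)` twice, `u` injective), `χ (τ g) = φ (χ g)`, `χ (u x) = 1`
(`u y` and `u x` commute). So `N` is a normal subgroup, invariant under `S`; commutators are in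
`N`; `χ g ≠ 0` and `χ g ^ (q - 1) = 1`, `q = Nat.card F`, so `E = q - 1` works (`p ∤ q - 1`).
`χ ((S ^ (p ^ μ) x) i) = χ (u t0 * x i * (u t0)⁻¹) = χ (x i)`. An `x ∈ B` with
`(S ^ (p ^ (μ-1))) x * x⁻¹ ∉ N`: if `1 ≤ j` take (SQE) `x` with `x 0 = g`,
`χ ((τ ^ (p ^ (j-1))) g) ≠ χ g`: the value of `(S ^ (p ^ (μ-1))) x` at `0` is
`x (k * p ^ (j-1)) = (τ ^ (p ^ (j-1))) g`. If `j = 0`, `1 ≤ b`, take `x 0 = g` with `χ g ≠ 1` and
`x l = 1` for `0 < l < k`; the value of `(S ^ (p ^ (b-1))) x` at `0` is `x (p ^ (b-1)) = 1`. Apply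
LRQ and UTV. -/
def UTGStmt : Prop :=
  ∀ (Γ F : Type) [Group Γ] [Finite Γ] [Field F] [Finite F] (p b j : ℕ) [Fact p.Prime]
    [CharP F p] (φ : F ≃+* F) (τ : MulAut Γ) (u : F → Γ) (χ : Γ → F) (t0 : F), p ≠ 2 →
    orderOf φ = p ^ j → Function.Injective u → (∀ x y, u (x + y) = u x * u y) →
    (∀ g x, g * u x * g⁻¹ = u (χ g * x)) → (∀ g, χ g = 1 → ∃ x, g = u x) →
    (∀ x, τ (u x) = u (φ x)) → t0 ≠ 0 → φ t0 = t0 →
    (∀ g, (τ ^ (p ^ j)) g = u t0 * g * (u t0)⁻¹) → (∃ g, χ g ≠ 1) →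
    (1 ≤ j → ∃ g, χ ((τ ^ (p ^ (j - 1))) g) ≠ χ g) → 1 ≤ b + j →
    ∀ d : ℕ, SL (tsh τ (p ^ b)) d → p ^ (b + j + 1) ∣ d

/-! ## Automorphisms of `PS F` -/

/-- Row CEN (25 lines). Proof: `h = pr M` commutes with `pr (uu 1)` and `pr (vv 1)`. `conj_uu`:
`M * uu 1 * M⁻¹` has `(1,0)` entry `- M 1 0 ^ 2` and the `(0,1)` entry `M 0 0 ^ 2`, diagonal entries
`1 ∓ M 0 0 * M 1 0`; compare with `pr_eq_iff`: `M 1 0 = 0`, `r = 1`, `M 0 0 ^ 2 = 1`. `conj_vv`: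
`M 0 1 = 0`. So `M` is `M 0 0` times the identity and `pr M = 1` (`pr_eq_iff`). -/
def CENStmt : Prop :=
  ∀ (F : Type) [Field F] (h : PS F), MulAut.conj h = 1 → h = 1

/-- Row TRI (70 lines). Proof: `fld_spec`: `α = conj (pr M) * ee c φ`. As
`ee c φ (pr (uu x)) = pr (uu (c * φ x))`, taking `x` with `c * φ x = 1` shows
`pr M * pr (uu 1) * (pr M)⁻¹ ∈ UU F`; by `conj_uu` and `pr_mem_UU`, `M 1 0 = 0`. So
`M = uu b * hh a`, `a = M 0 0` (a unit), `b = M 0 1 * M 0 0`. `conj (pr (hh a)) = ee (a * a) 1`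
(on `pr N`: `hh a * N * (hh a)⁻¹` has the entries `N 0 0, a² N 0 1, a⁻² N 1 0, N 1 1`; this is in the
proof of `inner_of_odd` in Psl3), and `ee (a * a) 1 * ee c φ = ee (a * a * c) φ` (`ee_mul`). -/
def TRIStmt : Prop :=
  ∀ (F : Type) [Field F] [Finite F] (α : MulAut (PS F)), (∀ x : F, α (pr (uu x)) ∈ UU F) →
    ∃ (b : F) (c : Fˣ), α = MulAut.conj (pr (uu b)) * ee c (fld α)

/-- Row CSY (80 lines). Proof: `UU F` is a Sylow `r`-subgroup (`sylow_of_card`, `card_UU`); the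
number of Sylow subgroups is the index of its normalizer (`Sylow.card_eq_index_normalizer`), and the
normalizer is `TT F` (`conj_uu`, `pr_mem_UU`). The index of `TT F` is the index in `SL2 F` of its
inverse image `{M | M 1 0 = 0}` (if `pr M = pr N` and `N 1 0 = 0` then `M 1 0 = 0`;
`Subgroup.index_comap_of_surjective`); that subgroup has `q (q - 1)` elements (bijection with
`Fˣ × F`) and `SL2 F` has `q (q² - 1)` elements (`card_SL2`). -/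
def CSYStmt : Prop :=
  ∀ (F : Type) [Field F] [Finite F] (r f : ℕ) [Fact r.Prime], 0 < f → Nat.card F = r ^ f →
    Nat.card (Sylow r (PS F)) = Nat.card F + 1

/-- Row FUU (40 lines; needs FXY). Proof: FXY gives an invariant Sylow `r`-subgroup `P`; `UU F` is
one (`sylow_of_card`), so `UU F = h P h⁻¹` for some `h`. -/
def FUUStmt : Prop :=
  ∀ (F : Type) [Field F] [Finite F] (p r f N : ℕ) [Fact r.Prime] (σ : MulAut (PS F)), p.Prime →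
    0 < f → Nat.card F = r ^ f → ¬ p ∣ Nat.card (Sylow r (PS F)) → σ ^ (p ^ N) = 1 →
    ∃ h : PS F, ∀ x, x ∈ UU F ↔ (MulAut.conj h * σ * (MulAut.conj h)⁻¹) x ∈ UU F

/-- Row SE1 (70 lines; needs TRI, CEN). Proof: `Γ = UU F`, `D = ⊥`; the relative index is
`card (UU F) = r ^ f`, prime to `p`. Suppose `α = σ ^ (p ^ m)` fixes `UU F` pointwise. TRI:
`α = conj (pr (uu b)) * ee c ψ`, and `α (pr (uu x)) = pr (uu (c * ψ x))`, so `c * ψ x = x` for all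
`x` (`pr_uu_inj`): `c = 1`, `ψ = 1`, `α = conj (pr (uu b))`. `α ^ (p ^ N) = 1` and CEN give
`pr (uu (p ^ N * b)) = 1`, so `p ^ N * b = 0`, `b = 0` (`p ≠ 0` in `F`), `α = 1`. -/
def SE1Stmt : Prop :=
  ∀ (F : Type) [Field F] [Finite F] (p r f N m : ℕ) [Fact r.Prime] (σ : MulAut (PS F)),
    p.Prime → p ≠ r → 0 < f → Nat.card F = r ^ f → σ ^ (p ^ N) = 1 → σ ^ (p ^ m) ≠ 1 →
    (∀ x, x ∈ UU F ↔ σ x ∈ UU F) → Sec p m σ

/-- Row DED (20 lines). Proof: independence of the distinct monoid homomorphisms `φ ^ l : F →* F`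
(`linearIndependent_monoidHom F F`); the `φ ^ l`, `l < n`, are distinct. -/
def DEDStmt : Prop :=
  ∀ (F : Type) [Field F] (φ : F ≃+* F) (n : ℕ) (a : ℕ → F), orderOf φ = n → 0 < n → a 0 ≠ 0 →
    ∃ x : F, ∑ l ∈ Finset.range n, a l * (φ ^ l) x ≠ 0

/-- Row H9M (40 lines; needs DED). Proof: `a l = ∏_{i<l} (φ ^ i) c`, `z = ∑_{l<n} a l * (φ ^ l) x ≠ 0`
(DED). `c * φ z = ∑_{l<n} a (l+1) * (φ ^ (l+1)) x = z - a 0 * x + a n * (φ ^ n) x = z`. -/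
def H9MStmt : Prop :=
  ∀ (F : Type) [Field F] (φ : F ≃+* F) (n : ℕ) (c : F), orderOf φ = n → 0 < n →
    ∏ l ∈ Finset.range n, (φ ^ l) c = 1 → ∃ z : F, z ≠ 0 ∧ c * φ z = z

/-- Row H9A (40 lines; needs DED). Proof: `x` with `t = ∑_{l<n} (φ ^ l) x ≠ 0`, `φ t = t`;
`B l = ∑_{i<l} (φ ^ i) b`, `B 0 = B n = 0`, `φ (B l) = B (l+1) - b`;
`y = t⁻¹ * ∑_{l<n} B l * (φ ^ l) x`. Then `φ y = y - b`. -/
def H9AStmt : Prop :=
  ∀ (F : Type) [Field F] (φ : F ≃+* F) (n : ℕ) (b : F), orderOf φ = n → 0 < n →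
    ∑ l ∈ Finset.range n, (φ ^ l) b = 0 → ∃ y : F, b = y - φ y

/-- Row POW (25 lines). Proof: induction on `i`;
`ee 1 φ * conj g = conj (ee 1 φ g) * ee 1 φ` (`conj_comm`), `ee 1 φ (pr (uu x)) = pr (uu (φ x))`,
`ee_mul`. -/
def POWStmt : Prop :=
  ∀ (F : Type) [Field F] [Finite F] (φ : F ≃+* F) (b : F) (i : ℕ),
    (MulAut.conj (pr (uu b)) * ee 1 φ) ^ i =
      MulAut.conj (pr (uu (∑ l ∈ Finset.range i, (φ ^ l) b))) * ee 1 (φ ^ i)

/-- Row NFM (90 lines; needs TRI, H9M). Proof: TRI: `σ = conj (pr (uu b)) * ee c φ`, `φ = fld σ`.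
By induction `(σ ^ i) (pr (uu x)) = pr (uu ((∏_{l<i} (φ ^ l) c) * (φ ^ i) x))`. `i = p ^ N`, `x = 1`:
`∏_{l < p ^ N} (φ ^ l) c = 1`. `φ ^ (p ^ N) = 1`, so `j ≤ N` and this product is
`(∏_{l < p ^ j} (φ ^ l) c) ^ (p ^ (N - j))`; in characteristic `p`, `x ^ (p ^ i) = 1` implies
`x = 1`. H9M: `z` with `c * φ z = z`. Take `e = ee z⁻¹ 1`:
`e * σ * e⁻¹ = conj (e (pr (uu b))) * ee (z⁻¹ * c * φ z) φ`, `e (pr (uu b)) = pr (uu (z⁻¹ * b))`. -/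
def NFMStmt : Prop :=
  ∀ (F : Type) [Field F] [Finite F] (p N j : ℕ) [Fact p.Prime] [CharP F p] (σ : MulAut (PS F)),
    σ ^ (p ^ N) = 1 → (∀ x : F, σ (pr (uu x)) ∈ UU F) → orderOf (fld σ) = p ^ j →
    ∃ (e : MulAut (PS F)) (b : F), e * σ * e⁻¹ = MulAut.conj (pr (uu b)) * ee 1 (fld σ)

/-- Row SE3 (80 lines; needs POW). Proof: `Γ = TT F`, `D = UU F` (`UU F ≤ TT F`, normalised:
`conj_uu`). `D.relIndex Γ` divides the index of `UU F`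
(`Subgroup.relIndex_mul_index`), prime to `p` since `UU F` is a Sylow `p`-subgroup
(`sylow_of_card`, `card_UU`). With `ψ = φ ^ (p ^ m)`, POW: `σ ^ (p ^ m) = conj (pr (uu b')) * ee 1 ψ`,
which maps `pr (hh t)` to `pr (uu b' * hh (ψ t) * (uu b')⁻¹)`. If
`σ ^ (p ^ m) x * x⁻¹ ∈ UU F` for all `x ∈ TT F`, then (`pr_mem_UU`, diagonal entries)
`ψ t * t⁻¹ = (ψ t)⁻¹ * t`, `(ψ t)² = t²` for all `t ≠ 0`, so `ψ = 1` (`eq_one_of_sign`). -/
def SE3Stmt : Prop :=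
  ∀ (F : Type) [Field F] [Finite F] (p f m : ℕ) [Fact p.Prime] (φ : F ≃+* F) (b : F), 0 < f →
    Nat.card F = p ^ f → φ ^ (p ^ m) ≠ 1 → Sec p m (MulAut.conj (pr (uu b)) * ee 1 φ)

/-- Row SE4 (130 lines; needs POW, H9A). Characteristic 2: `pr` is injective (`pr_eq_iff`,
`r * r = 1 → r = 1`). Put `t = ∑ (φ ^ l) b ≠ 0`, `φ t = t`. `∑ (φ ^ l) (b² + t b) = t² + t t = 0`
(`add_pow_char`), so H9A gives `v` with `φ v + v = b² + t b`; if `v = 0` replace it by `1`. So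
`v ≠ 0`. `Γ = {pr M | M 1 1 = M 0 0 + M 1 0 * t, M 0 1 = M 1 0 * v}`, a subgroup: with
`x = M 0 0`, `y = M 1 0` the determinant condition is `x² + x y t + y² v = 1`. `D = ⊥`. The
automorphism `σ` maps `pr M` to `pr (uu b * φ(M) * uu b)` (`(uu b)⁻¹ = uu b`), with
`x' = φ x + b φ y`, `y' = φ y`, `M' 1 1 = x' + y' t`, `M' 0 1 = φ y (b² + φ v + b t) = y' v`. `Γ` has
odd order: if `M² = 1` then (`M² + tr M • M + 1 = 0`, characteristic 2) `tr M = y t = 0`,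
`y = 0`, `x² = 1`, `M = 1` (Cauchy). The element with `x = (v + t²) / v`, `y = t / v` is in `Γ` and
does not commute with `pr (uu t)` since `y ≠ 0`; `σ ^ (2 ^ j) = conj (pr (uu t))` (POW). -/
def SE4Stmt : Prop :=
  ∀ (F : Type) [Field F] [Finite F] [CharP F 2] (j : ℕ) (φ : F ≃+* F) (b : F),
    orderOf φ = 2 ^ j → ∑ l ∈ Finset.range (2 ^ j), (φ ^ l) b ≠ 0 →
    Sec 2 j (MulAut.conj (pr (uu b)) * ee 1 φ)

/-- Row UT0 (60 lines; needs TRC). Proof: `y = (pr (uu t))⁻¹ = pr (uu m)`, `m = -t`,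
`a = pr (mk2 0 (-m) m⁻¹ 0)`: `a * a = 1`, `(a * y) ^ 3 = 1` (`A * uu m` has trace `1`,
`A * uu m = mk2 0 (-m) m⁻¹ 1`, its cube is `-1`). `conj (pr (uu t)) = conj y⁻¹`. `trefoil_rel`:
with `x = a * (y⁻¹ * a * y)`, `ef (conj y⁻¹) x = ((conj y⁻¹) ^ 2) x`. If `p ∤ d` then `L.rel`
(`N = 1`, `i = 2`, `a = 0`) gives `conj y⁻¹ x = x`; TRC (`w = y`): `y` commutes with `a`; but
`A * uu m * A⁻¹ = vv (-m⁻¹)` is not in `UU F`. -/
def UT0Stmt : Prop :=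
  ∀ (F : Type) [Field F] [Finite F] (p : ℕ) [Fact p.Prime] [CharP F p] (t : F), p ≠ 2 → t ≠ 0 →
    ∀ d : ℕ, L (MulAut.conj (pr (uu t))) d → p ∣ d

/-- Row UTY (130 lines; needs UT0, UTG, POW, SQE, and QTL of the first board). Put
`σ = conj (pr (uu b0)) * ee 1 φ`, `t0 = ∑ (φ ^ l) b0`, `φ t0 = t0`, `σ ^ (p ^ j) = conj (pr (uu t0))`
(POW). Case `b = j = 0`: `σ = conj (pr (uu t0))`; `η ↦ η 0` is a surjective homomorphism
`TSq σ 1 → PS F` (SQE) which carries `tsh` to `σ`, so `L σ d` (`L.of_surj`); UT0. Case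
`1 ≤ b + j`: `Γ = TT F`, invariant under `σ`; `τ` = restriction of `σ` to `TT F`
(`restr`); QTL (`π` = identity of `Γ`) gives `SL (tsh τ (p ^ b)) d`. Apply UTG with
`u x = pr (uu x)`, `χ g = (M 0 0)²` where `pr M = g`, `M 1 0 = 0` (`Classical.choose`):
`conj_uu` gives `g * u x * g⁻¹ = u (χ g * x)`; if `χ g = 1` then `M 0 0 = ± 1 = M 1 1`, `g ∈ UU F`
(`pr_mem_UU`). `χ (pr (hh t)) = t²` (by injectivity of `u`); `q ≥ 4` and `p` odd, so some `t ≠ 0` has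
`t² ≠ 1`; if `1 ≤ j`, `ψ = φ ^ (p ^ (j-1)) ≠ 1`, so (`eq_one_of_sign`) some `t` has
`(ψ t)² ≠ t²`, and `χ ((τ ^ (p ^ (j-1))) (pr (hh t))) = (ψ t)²` (POW). Finally
`d ∣ ed d` (`dvd_ed`). -/
def UTYStmt : Prop :=
  ∀ (F : Type) [Field F] [Finite F] (p b j : ℕ) [Fact p.Prime] [CharP F p] (φ : F ≃+* F) (b0 : F),
    p ≠ 2 → 4 ≤ Nat.card F → orderOf φ = p ^ j →
    ∑ l ∈ Finset.range (p ^ j), (φ ^ l) b0 ≠ 0 →
    Wr p (MulAut.conj (pr (uu b0)) * ee 1 φ) b j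

/-! ## Primes dividing `q + 1` -/

/-- Row NRM (30 lines). Proof: characteristic 2: `z = 0`, every element is a square. Otherwise
`x² + t x z + z² = (x + t z / 2)² + (1 - t² / 4) z²` and `FiniteField.exists_root_sum_quadratic`
(for `X² - c` and `(1 - t²/4) X²`). -/
def NRMStmt : Prop :=
  ∀ (F : Type) [Field F] [Finite F] (t c : F), t * t ≠ 4 → ∃ x z : F, x * x + t * x * z + z * z = c

/-- Row NSP (130 lines; needs NRM). Proof: `M = mk2 0 (-1) 1 t` with `t` as in the proof of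
`exists_elt` (Psl4; `t = lam + lam⁻¹`, `lam` a primitive `p ^ a`-th root of unity in the algebraic
closure; that proof shows `M ^ (p ^ a) = 1` because over the closure `M` is conjugate to `hh lam`;
in the same way `M ^ (p ^ (a-1)) ≠ 1`, and no power `M ^ (p ^ (a-1))` is central: order `p` odd, the
kernel of `pr` has elements with `r² = 1` only). So `orderOf (pr M) = p ^ a`. `t² ≠ 4` since
`(lam - lam⁻¹)² ≠ 0`. NRM: `x² + t x z + z² = -1`; `n = pr (mk2 x (t x + z) z (-x))`: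
determinant `-(x² + t x z + z²) = 1`, `n * n = 1`, and `N * M` has trace `0`, so
`(N * M)² = -1`, `(n s)² = 1`, `n s n⁻¹ = s⁻¹`. -/
def NSPStmt : Prop :=
  ∀ (F : Type) [Field F] [Finite F] (p r f a : ℕ) [Fact p.Prime] [Fact r.Prime] [CharP F r],
    Nat.card F = r ^ f → p ≠ 2 → p ≠ r → 1 ≤ a → p ^ a ∣ Nat.card F + 1 →
    ∃ (t : F) (n : PS F), t * t ≠ 4 ∧
      orderOf (pr (mk2 0 (-1) 1 t (by ring)) : PS F) = p ^ a ∧
      n * pr (mk2 0 (-1) 1 t (by ring)) * n⁻¹ = (pr (mk2 0 (-1) 1 t (by ring)))⁻¹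

/-- Row PCA (30 lines). Proof: `card_PS`: `card (PS F)` divides `q (q - 1) (q + 1)`; `p ∤ q`, and
`p ∤ q - 1` because `p ∣ q + 1` and `p ≠ 2`. -/
def PCAStmt : Prop :=
  ∀ (F : Type) [Field F] [Finite F] (p r f a : ℕ) [Fact p.Prime] [Fact r.Prime],
    Nat.card F = r ^ f → p ≠ 2 → p ≠ r → 1 ≤ a → p ^ a ∣ Nat.card F + 1 →
    ¬ p ^ (a + 1) ∣ Nat.card F + 1 → ¬ p ^ (a + 1) ∣ Nat.card (PS F)

/-- Row LTE (60 lines). Proof: `K` = fixed field of `φ`, `q = q₁ ^ (p ^ j)`, `q₁ = Nat.card K`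
(`FixedPoints.finrank_eq_card` for `Subgroup.zpowers φ`, `Module.natCard_eq_pow_finrank`).
`q₁ ^ (p ^ j) ≡ q₁ mod p` (Fermat), so `p ∣ q₁ + 1`, and then `p ^ (j+1) ∣ q₁ ^ (p ^ j) + 1`
(in `ℤ`: `dvd_sub_pow_of_dvd_sub` for `q₁` and `-1`, `p` odd). So `j + 1 ≤ a`. -/
def LTEStmt : Prop :=
  ∀ (F : Type) [Field F] [Finite F] (p a j : ℕ) (φ : F ≃+* F), p.Prime → p ≠ 2 →
    orderOf φ = p ^ j → p ∣ Nat.card F + 1 → ¬ p ^ (a + 1) ∣ Nat.card F + 1 → j ≤ a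

/-- Row BRP (150 lines; needs NRM, TRC). Put `M = mk2 0 (-1) 1 t`, `y = pr M`. First a matrix `A`,
not scalar, with `tr A = 0`, `det A = 1`, `tr (A * M) = 1`: `A = mk2 x (1 - w + x t) (-w) (-x)`, where
`x² + w² - t x w - w + 1 = 0`. Such `x, w`: NRM (for `-t`) gives `X² + W² - t X W = c`,
`c = (t² - 3) / (4 - t²)`; `x = X + t / (4 - t²)`, `w = W + 2 / (4 - t²)`. If `A` is scalar then
`w = 0`, `1 + x t = 0`, `x = -x`; then `2 = 0` (otherwise `x = 0`, contradiction), `x² = 1`, `x = 1`,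
`t = 1`, excluded. Let `a = pr A`: `a * a = 1`, `(a * y) ^ 3 = 1` (`Z = A * M`: `Z² = Z - 1`,
`Z³ = -1`). `x₁ = a * (y⁻¹ * a * y)`, `trefoil_rel`: `ef (conj y⁻¹) x₁ = ((conj y⁻¹) ^ 2) x₁`. If
`p ^ c ∤ d`, `L.rel` (`N = c`, `i = 2`, `a = c - 1`) shows that `w = y ^ (p ^ (c-1)) ≠ 1` commutes with
`x₁`, so with `a` (TRC). `w = pr W`, `W = M ^ (p ^ (c-1)) = α M + β` (`α, β ∈ F`, induction), `α ≠ 0`
as `w ≠ 1`. `A W A⁻¹ = ± W`. If `-` (and `2 ≠ 0`) then `tr W = 0`, `W² = -1`, `w² = 1`, impossible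
for order `p` odd. If `+`: `A` commutes with `M`, `a` with `y`, `1 = (a y)³ = a y³`, so `y⁶ = 1`,
`y³ = 1` (odd order), `a = 1`, `A` scalar (`pr_eq_iff`), contradiction. -/
def BRPStmt : Prop :=
  ∀ (F : Type) [Field F] [Finite F] (p c d : ℕ) (t : F), p.Prime → p ≠ 2 → 1 ≤ c → t * t ≠ 4 →
    ¬ (t = 1 ∧ (2 : F) = 0) → orderOf (pr (mk2 0 (-1) 1 t (by ring)) : PS F) = p ^ c →
    GLaw (PS F) d → p ^ c ∣ d

/-- Row TR3 (100 lines). Characteristic 2, no primitive cube root of unity. `pr` is injective. Choose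
`w ≠ 0, 1`, `v = w² + w ≠ 0`, `s = 1 + v⁻¹` (`≠ 0`, else `w² + w + 1 = 0`), `t` with `t² = s + w`. Then
for `A z = z² + t² z`: `A s = s w`, `A (s w) = s (1 + w)`, `A (s (1 + w)) = s` (use `s v = v + 1`).
Let `y = pr Y`, `Y = mk2 0 1 1 t`. Choose `X ∈ SL2 F` with `tr X = s`, `tr (X * Y⁻¹) = t`:
`X = mk2 x (t + x t + z) z (s + x)`, condition `x² + s x + z² + t z + t x z + 1 = 0`: if `t ≠ 0`
take `z = s / t`, `x² = z² + t z + 1`; if `t = 0` take `x = 0`, `z = 1`. For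
`X' = X⁻¹ * Y⁻¹ * X * Y`: `tr (X' * Y⁻¹) = tr (X⁻¹ Y⁻¹ X) = tr Y⁻¹ = t` and
`tr X' = (tr X)² + t² + (tr (X Y))² + tr X * t * tr (X Y)` with `tr (X Y) = t * tr X + t`, that is
`tr X' = A (tr X)` (polynomial identity; entries). So the traces of the iterates of `X` under
`X ↦ X⁻¹ Y⁻¹ X Y` are `s, s w, s (1 + w), s, ..`, exact period 3, and `GLaw` (iterates `r`,
`r + d` of `pr X` agree, so those of `X`) gives `3 ∣ d`. -/
def TR3Stmt : Prop :=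
  ∀ (F : Type) [Field F] [Finite F], (2 : F) = 0 → 4 ≤ Nat.card F →
    (∀ w : F, w * w + w + 1 ≠ 0) → ∀ d : ℕ, GLaw (PS F) d → 3 ∣ d

/-- Row BRG (50 lines; needs NSP, BRP, TR3). Proof: NSP gives `t`. If not (`t = 1` and `2 = 0`): BRP.
If `t = 1` and `2 = 0`: `M³ = 1`, so `p ^ a = 3`; `3 ∣ q + 1`, so `F` has no `w` with
`w² + w + 1 = 0` (it would have order `3 ∣ q - 1`); TR3. -/
def BRGStmt : Prop :=
  ∀ (F : Type) [Field F] [Finite F] (p r f a d : ℕ) [Fact p.Prime] [Fact r.Prime] [CharP F r],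
    Nat.card F = r ^ f → 4 ≤ Nat.card F → p ≠ 2 → p ≠ r → 1 ≤ a → p ^ a ∣ Nat.card F + 1 →
    GLaw (PS F) d → p ^ a ∣ d

/-! ## Assembly -/

/-- Row GP1 (80 lines; needs FUU, NFM, POW, SE3, SE4, UTY, SCJ, WCJ). Proof: the number of Sylow
`p`-subgroups is `≡ 1 mod p` (`card_sylow_modEq_one`), FUU: `σ₁ = conj h * σ * (conj h)⁻¹` preserves
`UU F`. `φ = fld σ₁`, `orderOf φ = p ^ j` (it divides `p ^ N`). NFM:
`σ₂ = e * σ₁ * e⁻¹ = conj (pr (uu b)) * ee 1 φ`; `σ₂ ^ (p ^ m) ≠ 1`. If `φ ^ (p ^ m) ≠ 1`: SE3 and SCJ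
(twice, or once for `e * conj h`). Otherwise `j ≤ m`. POW: `σ₂ ^ (p ^ j) = conj (pr (uu t))`,
`t = ∑_{l < p ^ j} (φ ^ l) b`, so `σ₂ ^ (p ^ (j+1)) = conj (pr (uu (p t))) = 1`, hence `m = j` and
`t ≠ 0`. `p = 2`: SE4, SCJ. `p ≠ 2`: UTY, WCJ (third alternative). -/
def GP1Stmt : Prop :=
  ∀ (F : Type) [Field F] [Finite F] (p f : ℕ) [Fact p.Prime] [CharP F p], 0 < f →
    Nat.card F = p ^ f → 4 ≤ Nat.card F → Good p (PS F)

/-- Row GP2 (20 lines; needs CSY, FUU, SE1, SCJ): `p` prime to `r (q + 1)`. -/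
def GP2Stmt : Prop :=
  ∀ (F : Type) [Field F] [Finite F] (p r f : ℕ) [Fact r.Prime], p.Prime → p ≠ r → 0 < f →
    Nat.card F = r ^ f → ¬ p ∣ Nat.card F + 1 → Good p (PS F)

/-- Row GP3 (60 lines; needs CEN, CYT, CYN, NSP, PCA, LTE, BRG). Proof: `p ^ a` the exact power of
`p` in `q + 1`; NSP gives `s, n`; PCA. `orderOf (fld σ) = p ^ j`, `j ≤ a` (LTE).
`σ ^ (p ^ j)` has trivial field part and odd order, so it is `conj h` (`inner_of_odd`). CYN (with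
CEN): `σ ^ (p ^ a) = 1`, so `m < a`. Second alternative of `Good` with `c = a`: CYT, and BRG
(`p ^ (m+1) ∣ p ^ a ∣ d ∣ ed d`). -/
def GP3Stmt : Prop :=
  ∀ (F : Type) [Field F] [Finite F] (p r f : ℕ) [Fact p.Prime] [Fact r.Prime] [CharP F r],
    p ≠ 2 → p ≠ r → 0 < f → Nat.card F = r ^ f → 4 ≤ Nat.card F → p ∣ Nat.card F + 1 →
    Good p (PS F)

/-- Row GPS (30 lines; needs GP1, GP2, GP3). Proof: `r` the characteristic, `q = r ^ f`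
(`FiniteField.card'` or `Nat.card` version). If `p = 2 ≠ r` then `2 ≠ 0` in `F`: excluded. -/
def GPSStmt : Prop :=
  ∀ (F : Type) [Field F] [Finite F] (p : ℕ), p.Prime → 4 ≤ Nat.card F →
    (p ≠ 2 ∨ (2 : F) = 0) → Good p (PS F)

end Pool.ENR
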