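import Pool.Agent.H36.ENR.Stmts2

/-! Row UTY of board enr. -/

set_option autoImplicit false
set_option linter.style.haveILetI false
set_option linter.unusedVariables false

namespace Pool.ENR

open Pool.Agent.H81.ENG Pool.Agent.H55.NEU

section

variable {F : Type} [Field F]

theorem uty_conj {M : SL2 F} (hM : M 1 0 = 0) (x : F) :
    pr M * pr (uu x) * (pr M)⁻¹ = pr (uu (M 0 0 * M 0 0 * x)) := by
  rw [← map_inv, ← map_mul, ← map_mul, conj_uu]
  congr 1
  unfold uu
  apply mk2_congr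
  · rw [hM]; ring
  · rfl
  · rw [hM]; ring
  · rw [hM]; ring

theorem uty_ee (φ : F ≃+* F) (M : SL2 F) :
    EE 1 φ M = mk2 (φ (M 0 0)) (φ (M 0 1)) (φ (M 1 0)) (φ (M 1 1)) (by
      rw [← map_mul, ← map_mul, ← map_sub, sl_det, map_one]) := by
  rw [EE_apply]
  apply mk2_congr
  · rfl
  · rw [Units.val_one, one_mul]
  · rw [inv_one, Units.val_one, one_mul]
  · rfl

theorem uty_ee_uu (φ : F ≃+* F) (x : F) : ee 1 φ (pr (uu x)) = pr (uu (φ x)) := by
  rw [ee_pr, uty_ee]
  congr 1
  unfold uu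
  apply mk2_congr
  · exact map_one φ
  · rfl
  · exact map_zero φ
  · exact map_one φ

theorem uty_unip (φ : F ≃+* F) (b x : F) :
    (MulAut.conj (pr (uu b)) * ee 1 φ) (pr (uu x)) = pr (uu (φ x)) := by
  rw [MulAut.mul_apply, uty_ee_uu, MulAut.conj_apply, ← map_inv, ← map_mul, ← map_mul, uu_inv,
    uu_mul, uu_mul]
  congr 2
  ring

theorem uty_tri (φ : F ≃+* F) (b : F) {M : SL2 F} (hM : M 1 0 = 0) :
    ∃ M' : SL2 F, (MulAut.conj (pr (uu b)) * ee 1 φ) (pr M) = pr M' ∧ M' 1 0 = 0 ∧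
      M' 0 0 = φ (M 0 0) := by
  refine ⟨uu b * EE 1 φ M * (uu b)⁻¹, ?_, ?_, ?_⟩
  · rw [MulAut.mul_apply, ee_pr, MulAut.conj_apply, ← map_inv, ← map_mul, ← map_mul]
  · rw [uu_inv, uty_ee]
    unfold uu
    rw [mk2_mul, mk2_mul]
    simp only [mk2_10, hM, map_zero]
    ring
  · rw [uu_inv, uty_ee]
    unfold uu
    rw [mk2_mul, mk2_mul]
    simp only [mk2_00, hM, map_zero]
    ring

theorem uty_restr_pow {G : Type} [Group G] (s : MulAut G) (H : Subgroup G)
    (h : ∀ x, x ∈ H ↔ s x ∈ H) (n : ℕ) (x : H) :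
    (((restr s H h ^ n) x : H) : G) = (s ^ n) x := by
  induction n generalizing x with
  | zero => rfl
  | succ n ih =>
    rw [pow_succ, pow_succ, MulAut.mul_apply, MulAut.mul_apply, ih]
    rfl

theorem uty_sum (φ : F ≃+* F) (n : ℕ) (hn : φ ^ n = 1) (b : F) :
    φ (∑ l ∈ Finset.range n, (φ ^ l) b) = ∑ l ∈ Finset.range n, (φ ^ l) b := by
  have h1 : φ (∑ l ∈ Finset.range n, (φ ^ l) b) = ∑ l ∈ Finset.range n, (φ ^ (l + 1)) b := by
    rw [map_sum]
    apply Finset.sum_congr rfl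
    intro l _
    rw [pow_succ']
    rfl
  rw [h1]
  have h2 := Finset.sum_range_succ (fun l => (φ ^ l) b) n
  have h3 := Finset.sum_range_succ' (fun l => (φ ^ l) b) n
  rw [h2, hn, pow_zero] at h3
  exact (add_right_cancel h3).symm

end

theorem uty_thm (h1 : UT0Stmt) (h2 : UTGStmt) (h3 : POWStmt) (h4 : SQEStmt) (h5 : QTLStmt) :
    UTYStmt := by
  intro F _ _ p b j hp hcp φ b0 hp2 hq hφ ht d hd
  have hφ1 : φ ^ (p ^ j) = 1 := by rw [← hφ]; exact pow_orderOf_eq_one φ
  set t0 : F := ∑ l ∈ Finset.range (p ^ j), (φ ^ l) b0 with ht0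
  have hφt : φ t0 = t0 := uty_sum φ _ hφ1 b0
  have hσj : (MulAut.conj (pr (uu b0)) * ee 1 φ) ^ (p ^ j) = MulAut.conj (pr (uu t0)) := by
    rw [h3 F φ b0 (p ^ j), hφ1, ee_one_one, mul_one]
  by_cases hbj : b + j = 0
  · obtain ⟨rfl, rfl⟩ : b = 0 ∧ j = 0 := by omega
    rw [pow_zero, pow_one] at hσj
    rw [pow_zero] at hd
    rw [hσj] at hd
    have hL : L (MulAut.conj (pr (uu t0)) : MulAut (PS F)) d := by
      refine hd.1.of_surj (s := tsh (MulAut.conj (pr (uu t0)) : MulAut (PS F)) 1)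
        (s' := (MulAut.conj (pr (uu t0)) : MulAut (PS F)))
        { toFun := fun η => (η : ℤ → PS F) 0
          map_one' := rfl
          map_mul' := fun _ _ => rfl } ?_ ?_
      · intro g
        obtain ⟨x, hx⟩ := h4 (PS F) (MulAut.conj (pr (uu t0))) 1 one_pos (fun _ => g)
        exact ⟨x, hx 0 one_pos⟩
      · intro η
        show (η : ℤ → PS F) (0 + 1) = _
        exact η.2 0
    have h6 := h1 F p t0 hp2 ht d hL
    rw [zero_add, zero_add, pow_one]
    exact h6.trans (dvd_ed d)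
  · have hk : 0 < p ^ b := pow_pos hp.out.pos _
    set σ : MulAut (PS F) := MulAut.conj (pr (uu b0)) * ee 1 φ with hσ
    have hfwd : ∀ x : PS F, x ∈ TT F → σ x ∈ TT F := by
      rintro _ ⟨M, hM, rfl⟩
      obtain ⟨M', hM', h10, -⟩ := uty_tri φ b0 hM
      exact ⟨M', h10, hM'.symm⟩
    have hmap : (TT F).map σ.toMonoidHom = TT F := by
      apply Subgroup.eq_of_le_of_card_ge
      · rintro _ ⟨x, hx, rfl⟩
        exact hfwd x hx
      · rw [Nat.card_congr ((TT F).equivMapOfInjective _ σ.injective).toEquiv.symm]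
    have hΓ : ∀ x : PS F, x ∈ TT F ↔ σ x ∈ TT F := by
      intro x
      refine ⟨hfwd x, fun hx => ?_⟩
      rw [← hmap] at hx
      obtain ⟨y, hy, hyx⟩ := hx
      have : y = x := σ.injective hyx
      rwa [← this]
    set τ : MulAut (TT F) := restr σ (TT F) hΓ with hτ
    have hSL : SL (tsh τ (p ^ b)) d :=
      h5 (PS F) (TT F) σ τ (TT F) hΓ (MonoidHom.id _) (fun x => ⟨x, rfl⟩) (fun x => rfl)
        (p ^ b) d hk hd
    let u : F → TT F := fun x => ⟨pr (uu x), uu x, rfl, rfl⟩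
    let χ : TT F → F := fun g => g.2.choose 0 0 * g.2.choose 0 0
    have hu : Function.Injective u := fun x y hxy => pr_uu_inj (congrArg Subtype.val hxy)
    have huadd : ∀ x y, u (x + y) = u x * u y := by
      intro x y
      apply Subtype.ext
      show pr (uu (x + y)) = pr (uu x) * pr (uu y)
      rw [← map_mul, uu_mul]
    have hconj : ∀ (g : TT F) (x : F), g * u x * g⁻¹ = u (χ g * x) := by
      intro g x
      apply Subtype.ext
      have hg := g.2.choose_spec
      show (g : PS F) * pr (uu x) * (g : PS F)⁻¹ = pr (uu (g.2.choose 0 0 * g.2.choose 0 0 * x))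
      rw [← uty_conj hg.1 x, hg.2]
    have hχM : ∀ (M : SL2 F) (hM : M 1 0 = 0), χ ⟨pr M, M, hM, rfl⟩ = M 0 0 * M 0 0 := by
      intro M hM
      have e1 := hconj ⟨pr M, M, hM, rfl⟩ 1
      have e2 : (⟨pr M, M, hM, rfl⟩ : TT F) * u 1 * (⟨pr M, M, hM, rfl⟩ : TT F)⁻¹ =
          u (M 0 0 * M 0 0 * 1) := by
        apply Subtype.ext
        exact uty_conj hM 1
      rw [e2] at e1
      have e3 := hu e1
      rw [mul_one, mul_one] at e3
      exact e3.symm
    have hker : ∀ g : TT F, χ g = 1 → ∃ x, g = u x := by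
      rintro ⟨_, M, hM, rfl⟩ hg
      rw [hχM M hM] at hg
      have hd1 := sl_det M
      rw [hM, mul_zero, sub_zero] at hd1
      have h7 : M 0 0 = M 1 1 := by
        linear_combination (-(M 0 0)) * hd1 + (M 1 1) * hg
      have h8 : pr M ∈ UU F := pr_mem_UU.2 ⟨hM, h7⟩
      obtain ⟨x, hx⟩ := h8
      exact ⟨x, Subtype.ext hx.symm⟩
    have hτu : ∀ x, τ (u x) = u (φ x) := by
      intro x
      apply Subtype.ext
      exact uty_unip φ b0 x
    have hτj : ∀ g, (τ ^ (p ^ j)) g = u t0 * g * (u t0)⁻¹ := by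
      intro g
      apply Subtype.ext
      rw [hτ, uty_restr_pow, hσj]
      rfl
    have hex : ∃ g, χ g ≠ 1 := by
      obtain ⟨t, ht1, ht2, ht3⟩ : ∃ t : F, t ≠ 0 ∧ t ≠ 1 ∧ t ≠ -1 := by
        by_contra hcon
        push Not at hcon
        classical
        haveI := Fintype.ofFinite F
        have h9 : (Finset.univ : Finset F) ⊆ {0, 1, -1} := by
          intro t _
          rw [Finset.mem_insert, Finset.mem_insert, Finset.mem_singleton]
          by_cases e1 : t = 0
          · exact Or.inl e1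
          · by_cases e2 : t = 1
            · exact Or.inr (Or.inl e2)
            · exact Or.inr (Or.inr (hcon t e1 e2))
        have h10 := (Finset.card_le_card h9).trans Finset.card_le_three
        rw [Finset.card_univ, ← Nat.card_eq_fintype_card] at h10
        omega
      refine ⟨⟨pr (hh (Units.mk0 t ht1)), hh (Units.mk0 t ht1), rfl, rfl⟩, ?_⟩
      rw [hχM _ rfl]
      show t * t ≠ 1
      intro h11
      rcases sq_one h11 with h12 | h12
      · exact ht2 h12
      · exact ht3 h12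
    have hex2 : 1 ≤ j → ∃ g, χ ((τ ^ (p ^ (j - 1))) g) ≠ χ g := by
      intro hj
      set ψ : F ≃+* F := φ ^ (p ^ (j - 1)) with hψ
      have hψ1 : ψ ≠ 1 := by
        intro h0
        have h13 := orderOf_dvd_of_pow_eq_one h0
        rw [hφ] at h13
        have h14 := Nat.le_of_dvd (pow_pos hp.out.pos _) h13
        have h15 : p ^ (j - 1) < p ^ j := Nat.pow_lt_pow_right hp.out.one_lt (by omega)
        omega
      obtain ⟨t, ht1, ht2⟩ : ∃ t : F, ψ t ≠ t ∧ ψ t ≠ -t := by
        by_contra hcon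
        push Not at hcon
        apply hψ1
        apply eq_one_of_sign
        intro t
        by_cases e1 : ψ t = t
        · exact Or.inl e1
        · exact Or.inr (hcon t e1)
      have ht0' : t ≠ 0 := by
        rintro rfl
        exact ht1 (map_zero ψ)
      refine ⟨⟨pr (hh (Units.mk0 t ht0')), hh (Units.mk0 t ht0'), rfl, rfl⟩, ?_⟩
      set c0 : F := ∑ l ∈ Finset.range (p ^ (j - 1)), (φ ^ l) b0 with hc0
      obtain ⟨M', hM', h10, h00⟩ := uty_tri ψ c0 (M := hh (Units.mk0 t ht0')) rfl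
      have h16 : (τ ^ (p ^ (j - 1))) ⟨pr (hh (Units.mk0 t ht0')), hh (Units.mk0 t ht0'), rfl, rfl⟩ =
          ⟨pr M', M', h10, rfl⟩ := by
        apply Subtype.ext
        rw [hτ, uty_restr_pow, hσ, h3 F φ b0 (p ^ (j - 1)), ← hψ, ← hc0]
        exact hM'
      rw [h16, hχM M' h10, hχM _ rfl, h00]
      show ψ t * ψ t ≠ t * t
      intro h17
      rcases mul_eq_zero.mp (show (ψ t - t) * (ψ t + t) = 0 by linear_combination h17) with h | h
      · exact ht1 (sub_eq_zero.mp h)
      · exact ht2 (eq_neg_of_add_eq_zero_left h)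
    have h18 := h2 (TT F) F p b j φ τ u χ t0 hp2 hφ hu huadd hconj hker hτu ht hφt hτj hex hex2
      (by omega) d hSL
    exact h18.trans (dvd_ed d)

end Pool.ENR
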