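import Pool.Agent.H29.ENR.Stmts11

/-!
# Row `AS2` of the board `enr`: the elements of the almost simple group `T ⟨σ⟩` satisfy `SL`
-/

set_option autoImplicit false

namespace Pool.ENR

open Pool.Agent.H81.ENG

theorem as2_conj {T : Type} [Group T] (τ : MulAut T) (x : T) :
    (MulAut.conj (τ x) : MulAut T) = τ * MulAut.conj x * τ⁻¹ := by
  ext z
  rw [MulAut.mul_apply, MulAut.mul_apply, MulAut.conj_apply, MulAut.conj_apply, map_mul, map_mul,
    map_inv, MulAut.apply_inv_self]

/-- `t ↦ conj t` -/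
def as2Hom {T : Type} [Group T] (σ : MulAut T) : T →* ASg σ where
  toFun t := ⟨MulAut.conj t, Subgroup.subset_closure (Or.inl ⟨t, rfl⟩)⟩
  map_one' := Subtype.ext (map_one MulAut.conj)
  map_mul' a b := Subtype.ext (map_mul MulAut.conj a b)

theorem as2_thm : AS2Stmt := by
  intro T _ σ hZ d h τ hτ
  have hinj : Function.Injective (as2Hom σ) := by
    rw [injective_iff_map_eq_one]
    intro t ht
    exact hZ t (congrArg Subtype.val ht)
  have h1 := h.sl (⟨τ, hτ⟩ : ASg σ)⁻¹
  rw [inv_inv] at h1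
  refine h1.of_inj (as2Hom σ) hinj fun x => ?_
  apply Subtype.ext
  rw [MulAut.conj_apply]
  exact as2_conj τ x

end Pool.ENR
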