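import Pool.Agent.H29.ENR.Stmts

/-! Row GIS of board enr. -/

set_option autoImplicit false

namespace Pool.ENR

open Pool.Agent.H81.ENG

theorem gis_pow {T T' : Type} [Group T] [Group T'] (e : T ≃* T') (σ : MulAut T) (σ' : MulAut T')
    (h : ∀ x, e (σ x) = σ' (e x)) (n : ℕ) (x : T) : e ((σ ^ n) x) = (σ' ^ n) (e x) := by
  induction n generalizing x with
  | zero => rfl
  | succ n ih => rw [pow_succ, pow_succ, MulAut.mul_apply, MulAut.mul_apply, ih, h]

theorem gis_thm : GISStmt := by
  intro p T T' _ _ e hG σ' N m h1 h2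
  set σ : MulAut T := (e.trans σ').trans e.symm with hσ
  have hc : ∀ x, e (σ x) = σ' (e x) := by
    intro x
    show e (e.symm (σ' (e x))) = σ' (e x)
    rw [e.apply_symm_apply]
  have hcp := gis_pow e σ σ' hc
  have h1' : σ ^ (p ^ N) = 1 := by
    ext x
    apply e.injective
    rw [hcp, h1]
    rfl
  have h2' : σ ^ (p ^ m) ≠ 1 := by
    intro h0
    apply h2
    ext y
    have h3 := hcp (p ^ m) (e.symm y)
    rw [h0, e.apply_symm_apply] at h3
    rw [← h3]
    show e (e.symm y) = y
    exact e.apply_symm_apply y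
  rcases hG σ N m h1' h2' with h | h | h
  · left
    obtain ⟨Γ, D, hΓ, hD, hle, hn, hdiv, hne, x, hx, hxD⟩ := h
    have hcs : ∀ y, e.symm (σ' y) = σ (e.symm y) := by
      intro y
      apply e.injective
      rw [hc, e.apply_symm_apply, e.apply_symm_apply]
    have hrel : (D.comap e.symm.toMonoidHom).relIndex (Γ.comap e.symm.toMonoidHom) =
        D.relIndex Γ := by
      rw [Subgroup.relIndex_comap, Subgroup.map_comap_eq_self_of_surjective e.symm.surjective]
    refine ⟨Γ.comap e.symm.toMonoidHom, D.comap e.symm.toMonoidHom, ?_, ?_, ?_, ?_, ?_, ?_,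
      e x, ?_, ?_⟩
    · intro y
      show e.symm y ∈ Γ ↔ e.symm (σ' y) ∈ Γ
      rw [hcs]
      exact hΓ _
    · intro y
      show e.symm y ∈ D ↔ e.symm (σ' y) ∈ D
      rw [hcs]
      exact hD _
    · exact Subgroup.comap_mono hle
    · intro g hg y hy
      show e.symm (g * y * g⁻¹) ∈ D
      rw [map_mul, map_mul, map_inv]
      exact hn _ hg _ hy
    · rw [hrel]; exact hdiv
    · rw [hrel]; exact hne
    · show e.symm (e x) ∈ Γ
      rw [e.symm_apply_apply]
      exact hx
    · intro h3
      apply hxD
      have h4 : e.symm ((σ' ^ (p ^ m)) (e x) * (e x)⁻¹) ∈ D := h3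
      rw [← hcp, ← map_inv, ← map_mul, e.symm_apply_apply] at h4
      exact h4
  · right; left
    obtain ⟨t, c, hmc, ⟨s, n, lam, j, u, a1, a2, a3, a4, a5, a6, a7⟩, hd⟩ := h
    refine ⟨e t, c, hmc, ⟨e s, e n, lam, j, u, ?_, ?_, a3, ?_, a5, ?_, a7⟩, ?_⟩
    · rw [MulEquiv.orderOf_eq]
      exact a1
    · have h3 := congrArg e a2
      rw [MulAut.mul_apply, MulAut.conj_apply, map_mul, map_mul, map_inv, hc, map_pow] at h3
      rw [MulAut.mul_apply, MulAut.conj_apply]
      exact h3
    · rw [← map_inv, ← map_mul, ← map_mul, a4, map_pow]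
    · have h3 := congrArg e a6
      rw [MulAut.mul_apply, MulAut.conj_apply, map_mul, map_mul, map_inv, hc, map_mul,
        map_pow] at h3
      rw [MulAut.mul_apply, MulAut.conj_apply]
      exact h3
    · intro d hL
      apply hd
      obtain ⟨r, hr⟩ := hL
      have key : ∀ (n : ℕ) (x y : T), e ((fun z : T => z⁻¹ * y⁻¹ * z * y)^[n] x) =
          (fun z : T' => z⁻¹ * (e y)⁻¹ * z * e y)^[n] (e x) := by
        intro n
        induction n with
        | zero => intro x y; rfl
        | succ n ih =>
          intro x y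
          rw [Function.iterate_succ_apply, Function.iterate_succ_apply, ih]
          congr 1
          rw [map_mul, map_mul, map_mul, map_inv, map_inv]
      refine ⟨r, fun x y => e.injective ?_⟩
      rw [key, key]
      exact hr (e x) (e y)
  · right; right
    intro b d hd
    apply h b d
    have hmem : ∀ η : TSq σ (p ^ b), (fun i : ℤ => e ((η : ℤ → T) i)) ∈ TSq σ' (p ^ b) := by
      intro η i
      show e ((η : ℤ → T) (i + ((p ^ b : ℕ) : ℤ))) = σ' (e ((η : ℤ → T) i))
      rw [← hc]
      exact congrArg e (η.2 i)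
    let Φ : TSq σ (p ^ b) →* TSq σ' (p ^ b) :=
      { toFun := fun η => ⟨fun i : ℤ => e ((η : ℤ → T) i), hmem η⟩
        map_one' := by
          apply Subtype.ext
          funext i
          exact map_one e
        map_mul' := by
          intro η ζ
          apply Subtype.ext
          funext i
          exact map_mul e _ _ }
    refine hd.of_inj Φ ?_ (fun η => rfl)
    intro η ζ h3
    apply Subtype.ext
    funext i
    apply e.injective
    exact congrFun (congrArg Subtype.val h3) i

end Pool.ENR
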