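import Pool.Agent.H29.ENR.Stmts

/-! Row NUM of board enr. -/

set_option autoImplicit false

namespace Pool.ENR

open Finset

theorem num36_geom (x : ℤ) (a b : ℕ) :
    ∑ i ∈ range (a * b), x ^ i = (∑ i ∈ range a, x ^ i) * ∑ j ∈ range b, (x ^ a) ^ j := by
  induction b with
  | zero => simp
  | succ b ih =>
    rw [Nat.mul_succ, sum_range_add, ih, sum_range_succ, mul_add]
    congr 1
    rw [sum_mul]
    apply sum_congr rfl
    intro i _
    rw [pow_add, pow_mul]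
    ring

theorem num36_pow (p : ℕ) (x : ℤ) (i : ℕ) :
    ∃ y : ℤ, (1 + p * x) ^ i = 1 + i * (p * x) + p ^ 2 * y := by
  induction i with
  | zero => exact ⟨0, by simp⟩
  | succ i ih =>
    obtain ⟨y, hy⟩ := ih
    refine ⟨y + i * x ^ 2 + p * x * y, ?_⟩
    rw [pow_succ, hy]
    push_cast
    ring

theorem num36_sum {p : ℕ} (hp : p.Prime) (hp2 : p ≠ 2) {w : ℤ} (hw : (p : ℤ) ∣ w - 1) :
    ∃ y : ℤ, ∑ i ∈ range p, w ^ i = p + p ^ 2 * y := by
  obtain ⟨x, hx⟩ := hw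
  have hw1 : w = 1 + p * x := by linarith
  choose y hy using fun i => num36_pow p x i
  have h1 : ∑ i ∈ range p, w ^ i = ∑ i ∈ range p, (1 + (i : ℤ) * (p * x) + p ^ 2 * y i) := by
    apply sum_congr rfl
    intro i _
    rw [hw1, hy]
  have hi : (p : ℤ) ∣ ∑ i ∈ range p, (i : ℤ) := by
    have h2 := Finset.sum_range_id_mul_two p
    have h3 : p ∣ (∑ i ∈ range p, i) * 2 := by rw [h2]; exact dvd_mul_right _ _
    have h4 : Nat.Coprime p 2 := (Nat.coprime_primes hp Nat.prime_two).2 hp2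
    have h5 : p ∣ ∑ i ∈ range p, i := h4.dvd_of_dvd_mul_right h3
    have h6 : ((p : ℕ) : ℤ) ∣ ((∑ i ∈ range p, i : ℕ) : ℤ) := Int.natCast_dvd_natCast.2 h5
    push_cast at h6
    exact h6
  obtain ⟨s, hs⟩ := hi
  refine ⟨s * x + ∑ i ∈ range p, y i, ?_⟩
  rw [h1, sum_add_distrib, sum_add_distrib, ← sum_mul, hs, ← mul_sum]
  simp only [sum_const, card_range, nsmul_eq_mul, mul_one]
  ring

theorem num36_S {p : ℕ} (hp : p.Prime) (hp2 : p ≠ 2) {lam : ℤ} (hl : (p : ℤ) ∣ lam - 1) (k : ℕ) :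
    ¬ ((p : ℤ) ^ (k + 1)) ∣ ∑ i ∈ range (p ^ k), lam ^ i := by
  have hpi : Prime (p : ℤ) := Nat.prime_iff_prime_int.1 hp
  have hp0 : (p : ℤ) ≠ 0 := hpi.ne_zero
  induction k with
  | zero =>
    simp only [pow_zero, range_one, sum_singleton, zero_add, pow_one]
    intro h
    exact hpi.not_isUnit (isUnit_of_dvd_one h)
  | succ k ih =>
    intro h
    rw [show p ^ (k + 1) = p ^ k * p from pow_succ p k, num36_geom] at h
    have hw : (p : ℤ) ∣ lam ^ p ^ k - 1 := by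
      have h2 := sub_dvd_pow_sub_pow lam 1 (p ^ k)
      rw [one_pow] at h2
      exact hl.trans h2
    obtain ⟨y, hy⟩ := num36_sum hp hp2 hw
    rw [hy] at h
    have h3 : (p : ℤ) ^ (k + 1) * p ∣ (∑ i ∈ range (p ^ k), lam ^ i) * (1 + p * y) * p := by
      have e1 : (∑ i ∈ range (p ^ k), lam ^ i) * (1 + p * y) * p =
          (∑ i ∈ range (p ^ k), lam ^ i) * ((p : ℤ) + p ^ 2 * y) := by ring
      rw [e1]
      rw [show (p : ℤ) ^ (k + 1) * p = (p : ℤ) ^ (k + 1 + 1) by ring]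
      exact h
    have h4 := (mul_dvd_mul_iff_right hp0).1 h3
    have hcop : IsCoprime ((p : ℤ) ^ (k + 1)) (1 + p * y) := by
      apply IsCoprime.pow_left
      exact ⟨-y, 1, by ring⟩
    exact ih (hcop.dvd_of_dvd_mul_right h4)

theorem num_thm : NUMStmt := by
  intro p c M' lam e u hp hp2 hc hM' hu hl hdvd
  have hpi : Prime (p : ℤ) := Nat.prime_iff_prime_int.1 hp
  obtain ⟨k, rfl⟩ : ∃ k, c = k + 1 := ⟨c - 1, by omega⟩
  rw [Nat.add_sub_cancel] at hdvd
  push_cast at hdvd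
  have hA : (p : ℤ) ^ (k + 1) ∣ lam ^ (p ^ k * M') - 1 := by
    have h1 := dvd_sub_pow_of_dvd_sub (R := ℤ) (p := p) (a := lam) (b := 1) hl k
    rw [one_pow] at h1
    refine h1.trans ?_
    rw [pow_mul]
    have h2 := sub_dvd_pow_sub_pow (lam ^ p ^ k) 1 M'
    rwa [one_pow] at h2
  have h3 : (p : ℤ) ^ (k + 1) ∣ u * ∑ i ∈ range (p ^ k * M'), lam ^ i :=
    (dvd_add_right (hA.mul_left e)).1 hdvd
  have hucop : IsCoprime ((p : ℤ) ^ (k + 1)) u := by
    apply IsCoprime.pow_left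
    exact (Prime.coprime_iff_not_dvd hpi).2 hu
  have h4 := hucop.dvd_of_dvd_mul_left h3
  rw [num36_geom] at h4
  have hw : (p : ℤ) ∣ lam ^ p ^ k - 1 := by
    have h2 := sub_dvd_pow_sub_pow lam 1 (p ^ k)
    rw [one_pow] at h2
    exact hl.trans h2
  have h5 : ¬ (p : ℤ) ∣ ∑ j ∈ range M', (lam ^ p ^ k) ^ j := by
    intro h
    apply hM'
    have h6 : (p : ℤ) ∣ (∑ j ∈ range M', (lam ^ p ^ k) ^ j) - (M' : ℤ) := by
      have e1 : (∑ j ∈ range M', (lam ^ p ^ k) ^ j) - (M' : ℤ) =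
          ∑ j ∈ range M', ((lam ^ p ^ k) ^ j - 1) := by
        rw [sum_sub_distrib]
        simp
      rw [e1]
      apply dvd_sum
      intro j _
      have h2 := sub_dvd_pow_sub_pow (lam ^ p ^ k) 1 j
      rw [one_pow] at h2
      exact hw.trans h2
    have h7 : (p : ℤ) ∣ (M' : ℤ) := by
      have := dvd_sub h h6
      rwa [sub_sub_cancel] at this
    exact Int.natCast_dvd_natCast.1 h7
  have hcop : IsCoprime ((p : ℤ) ^ (k + 1)) (∑ j ∈ range M', (lam ^ p ^ k) ^ j) := by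
    apply IsCoprime.pow_left
    exact (Prime.coprime_iff_not_dvd hpi).2 h5
  exact num36_S hp hp2 hl k (hcop.dvd_of_dvd_mul_right h4)

end Pool.ENR
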